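import Pool.Agent.J4H16.DV.Stm

/-! Project DV: closed solutions in logarithmic polar coordinates. -/

open Set MeasureTheory Topology Filter
open scoped ENNReal NNReal

namespace Pool.Agent.J4H16.DV

open TH525.AG
open TH525.PU (first_zero deriv_nonpos_left)

variable {f g : MvPolynomial (Fin 2) ℝ} {A : Set (ℝ × ℝ)}

/-- if the derivative is positive at every zero, a positive function remains positive -/
lemma stay_pos {D D' : ℝ → ℝ} {T a : ℝ} (ha : 0 ≤ a)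
    (hd : ∀ t ∈ Icc 0 T, HasDerivWithinAt D (D' t) (Icc 0 T) t)
    (hz : ∀ t ∈ Icc 0 T, D t = 0 → 0 < D' t) (hDa : 0 < D a) :
    ∀ t ∈ Icc a T, 0 < D t := by
  intro t ht
  by_contra hcon
  push Not at hcon
  have hsub : Icc a t ⊆ Icc 0 T := Icc_subset_Icc ha ht.2
  have hc : ContinuousOn D (Icc a t) := fun x hx =>
    ((hd x (hsub hx)).continuousWithinAt).mono hsub
  obtain ⟨r, hr, hr0, hrp⟩ := first_zero ht.1 hc hDa hcon
  have hrm : r ∈ Icc 0 T := ⟨ha.trans hr.1.le, hr.2.trans ht.2⟩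
  have d1 := (hd r hrm).mono (show Icc a r ⊆ Icc 0 T from Icc_subset_Icc ha hrm.2)
  have i1 := deriv_nonpos_left hr.1 d1 (fun y hy => by rw [hr0]; exact (hrp y hy).le)
  exact absurd (hz r hrm hr0) (not_lt.2 i1)

/-- a zero with positive derivative is followed by positive values -/
lemma pos_after {D D' : ℝ → ℝ} {T t₀ : ℝ} (ht₀ : t₀ ∈ Ico 0 T)
    (hd : ∀ t ∈ Icc 0 T, HasDerivWithinAt D (D' t) (Icc 0 T) t)
    (h0 : D t₀ = 0) (hp : 0 < D' t₀) : ∃ a ∈ Ioc t₀ T, 0 < D a := by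
  have h1 := (hd t₀ ⟨ht₀.1, ht₀.2.le⟩).mono (show Icc t₀ T ⊆ Icc 0 T from Icc_subset_Icc_left ht₀.1)
  have h2 : HasDerivWithinAt D (D' t₀) (Ioi t₀) t₀ :=
    (h1.mono_of_mem_nhdsWithin (Icc_mem_nhdsGE ht₀.2)).Ioi_of_Ici
  have h3 := (hasDerivWithinAt_iff_tendsto_slope' (by simp)).1 h2
  have h4 := (h3.eventually (lt_mem_nhds hp)).and (Ioc_mem_nhdsGT ht₀.2)
  obtain ⟨a, ha1, ha2⟩ := h4.exists
  refine ⟨a, ha2, ?_⟩
  rw [slope_def_field, h0, sub_zero] at ha1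
  have h5 : 0 < a - t₀ := by linarith [ha2.1]
  by_contra hcon
  push Not at hcon
  have := div_nonpos_of_nonpos_of_nonneg hcon h5.le
  linarith

/-- a closed difference with positive derivative at its zeros has no zeros -/
lemma no_zero {D D' : ℝ → ℝ} {T : ℝ} (hT : 0 < T)
    (hd : ∀ t ∈ Icc 0 T, HasDerivWithinAt D (D' t) (Icc 0 T) t)
    (hz : ∀ t ∈ Icc 0 T, D t = 0 → 0 < D' t) (hc : D 0 = D T) :
    (∀ t ∈ Icc 0 T, 0 < D t) ∨ ∀ t ∈ Icc 0 T, D t < 0 := by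
  have h0m : (0:ℝ) ∈ Icc 0 T := ⟨le_rfl, hT.le⟩
  have hTm : T ∈ Icc 0 T := ⟨hT.le, le_rfl⟩
  rcases lt_trichotomy (D 0) 0 with h | h | h
  · right
    intro t ht
    by_contra hcon
    push Not at hcon
    have hex : ∃ a ∈ Icc t T, 0 < D a := by
      rcases hcon.eq_or_lt with h1 | h1
      · have htT : t < T := by
          refine lt_of_le_of_ne ht.2 fun he => ?_
          rw [he, ← hc] at h1
          linarith
        obtain ⟨a, ha, hp⟩ := pos_after ⟨ht.1, htT⟩ hd h1.symm (hz t ht h1.symm)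
        exact ⟨a, ⟨ha.1.le, ha.2⟩, hp⟩
      · exact ⟨t, ⟨le_rfl, ht.2⟩, h1⟩
    obtain ⟨a, ha, hp⟩ := hex
    have := stay_pos (ht.1.trans ha.1) hd hz hp T ⟨ha.2, le_rfl⟩
    linarith
  · exfalso
    obtain ⟨a, ha, hp⟩ := pos_after ⟨le_rfl, hT⟩ hd h (hz 0 h0m h)
    have := stay_pos ha.1.le hd hz hp T ⟨ha.2, le_rfl⟩
    linarith
  · left
    exact stay_pos le_rfl hd hz h

lemma ev_dF (s : ℝ) (p : ℝ × ℝ) : ev (dF f s) p = ev f p - s / 2 * p.1 := by
  simp [ev, dF]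

lemma ev_dG (s : ℝ) (p : ℝ × ℝ) : ev (dG g s) p = ev g p - s / 2 * p.2 := by
  simp [ev, dG]

lemma ang_d (s : ℝ) (p : ℝ × ℝ) : ang (dF f s) (dG g s) p = ang f g p := by
  unfold ang
  rw [ev_dF, ev_dG]
  ring

lemma rad_d (s : ℝ) (p : ℝ × ℝ) :
    rad (dF f s) (dG g s) p = rad f g p - s / 2 * (p.1 ^ 2 + p.2 ^ 2) := by
  unfold rad
  rw [ev_dF, ev_dG]
  ring

lemma pt_sq (t x : ℝ) : (pt t x).1 ^ 2 + (pt t x).2 ^ 2 = Real.exp (2 * x) := by
  have h := Real.sin_sq_add_cos_sq t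
  have e : Real.exp (2 * x) = Real.exp x ^ 2 := by
    rw [← Real.exp_nat_mul]
    norm_num
  unfold pt
  rw [e]
  simp only
  linear_combination (Real.exp x ^ 2) * h

lemma sc_d (s t x : ℝ) : sc (dF f s) (dG g s) t x =
    (rad f g (pt t x) - s / 2 * Real.exp (2 * x)) / ang f g (pt t x) := by
  unfold sc
  rw [ang_d, rad_d, pt_sq]

/-- the closed solutions of the member `s` -/
def Sol (f g : MvPolynomial (Fin 2) ℝ) (A : Set (ℝ × ℝ)) (s : ℝ) (ρ : ℝ → ℝ) : Prop :=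
  IsClosedIn (2 * Real.pi) (reg A) (sc (dF f s) (dG g s)) 0 ρ

lemma Sol.deriv' {s : ℝ} {ρ : ℝ → ℝ} (h : Sol f g A s ρ) :
    ∀ t ∈ Icc 0 (2 * Real.pi), HasDerivWithinAt ρ (sc (dF f s) (dG g s) t (ρ t))
      (Icc 0 (2 * Real.pi)) t := by
  intro t ht
  have := h.deriv t ht
  rwa [add_zero] at this

lemma Sol.ne (hpos : ∀ p ∈ A, 0 < ang f g p) {s s' : ℝ} (hs : s < s') {φ ψ : ℝ → ℝ}
    (hφ : Sol f g A s φ) (hψ : Sol f g A s' ψ) :
    (∀ t ∈ Icc 0 (2 * Real.pi), ψ t < φ t) ∨ ∀ t ∈ Icc 0 (2 * Real.pi), φ t < ψ t := by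
  have h := no_zero (D := fun t => φ t - ψ t)
    (D' := fun t => sc (dF f s) (dG g s) t (φ t) - sc (dF f s') (dG g s') t (ψ t))
    (T := 2 * Real.pi) Real.two_pi_pos (fun t ht => (hφ.deriv' t ht).sub (hψ.deriv' t ht))
    (fun t ht h0 => by
      have e : φ t = ψ t := by linarith
      have ha := hpos _ (hψ.mem t ht)
      rw [e, sc_d, sc_d, ← sub_div]
      refine div_pos ?_ ha
      have := mul_pos (by linarith : 0 < (s' - s) / 2) (Real.exp_pos (2 * ψ t))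
      linarith)
    (by
      have h1 := hφ.closed
      have h2 := hψ.closed
      show φ 0 - ψ 0 = φ (2 * Real.pi) - ψ (2 * Real.pi)
      rw [h1, h2])
  rcases h with h | h
  · left
    intro t ht
    have := h t ht
    linarith
  · right
    intro t ht
    have := h t ht
    linarith

/-- two closed solutions are ordered, or they are equal -/
lemma Sol.order (hA : ∀ t, (reg A t).OrdConnected) (hpos : ∀ p ∈ A, 0 < ang f g p) {s s' : ℝ}
    {φ ψ : ℝ → ℝ} (hφ : Sol f g A s φ) (hψ : Sol f g A s' ψ) :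
    (∀ t ∈ Icc 0 (2 * Real.pi), ψ t < φ t) ∨ (∀ t ∈ Icc 0 (2 * Real.pi), φ t < ψ t) ∨
      (s = s' ∧ EqOn φ ψ (Icc 0 (2 * Real.pi))) := by
  rcases lt_trichotomy s s' with h | h | h
  · rcases hφ.ne hpos h hψ with h1 | h1
    · exact Or.inl h1
    · exact Or.inr (Or.inl h1)
  · subst h
    have hL : LocLip (2 * Real.pi) (reg A) (sc (dF f s) (dG g s)) :=
      locLip hA (fun p hp => by rw [ang_d]; exact hpos p hp) _
    rcases lt_trichotomy (φ 0) (ψ 0) with h0 | h0 | h0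
    · exact Or.inr (Or.inl (ordered hL hφ hψ h0))
    · exact Or.inr (Or.inr ⟨rfl, eq_sol hL Real.two_pi_pos hφ hψ h0⟩)
    · exact Or.inl (ordered hL hψ hφ h0)
  · rcases hψ.ne hpos h hφ with h1 | h1
    · exact Or.inr (Or.inl h1)
    · exact Or.inl h1

end Pool.Agent.J4H16.DV
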