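import Pool.Agent.J4H16.DV.Main

/-! Project DV: the degree of the divergence. -/

open Set MeasureTheory Topology Filter
open scoped ENNReal NNReal

namespace Pool.Agent.J4H16.DV

open TH525.AG MvPolynomial

lemma pderiv_deg (i : Fin 2) (p : MvPolynomial (Fin 2) ℝ) {n : ℕ} (hp : p.totalDegree ≤ n) :
    (pderiv i p).totalDegree ≤ n - 1 := by
  classical
  unfold totalDegree
  apply Finset.sup_le
  intro m hm
  rw [mem_support_iff, coeff_pderiv] at hm
  have h1 : m + Finsupp.single i 1 ∈ p.support := by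
    rw [mem_support_iff]
    intro h0
    rw [h0, zero_mul] at hm
    exact hm rfl
  have h2 := Finset.le_sup (f := fun s : Fin 2 →₀ ℕ => s.sum fun _ e => e) h1
  have h3 : ((m + Finsupp.single i 1).sum fun _ e => e) ≤ n := le_trans h2 hp
  rw [Finsupp.sum_add_index' (by simp) (by simp)] at h3
  simp at h3
  omega

lemma dv_deg {f g : MvPolynomial (Fin 2) ℝ} {n : ℕ} (hf : f.totalDegree ≤ n)
    (hg : g.totalDegree ≤ n) : (dv f g).totalDegree ≤ n - 1 :=
  (totalDegree_add _ _).trans (max_le (pderiv_deg 0 f hf) (pderiv_deg 1 g hg))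

end Pool.Agent.J4H16.DV
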