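import Pool.Agent.J4H16.DV.Bas

/-! Project DV: the divergence identity, and the estimate for two nested closed orbits. -/

open Set MeasureTheory Topology Filter
open scoped ENNReal NNReal

namespace Pool.Agent.J4H16.DV

open TH525.AG

variable {f g : MvPolynomial (Fin 2) ℝ} {A : Set (ℝ × ℝ)}

lemma cone_cont (F : MvPolynomial (Fin 2) ℝ) : Continuous (cone F) := by
  unfold cone
  apply intervalIntegral.continuous_parametric_intervalIntegral_of_continuous'
  have h1 : Continuous fun q : (ℝ × ℝ) × ℝ => ((q.2 * q.1.1, q.2 * q.1.2) : ℝ × ℝ) := by fun_prop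
  exact continuous_snd.mul ((ev_cont F).comp h1)

lemma cone_add (F G : MvPolynomial (Fin 2) ℝ) (p : ℝ × ℝ) :
    cone (F + G) p = cone F p + cone G p := by
  unfold cone
  rw [← intervalIntegral.integral_add]
  · congr 1
    funext τ
    simp only [ev, map_add]
    ring
  · exact (continuous_id.mul ((ev_cont F).comp (by fun_prop))).intervalIntegrable _ _
  · exact (continuous_id.mul ((ev_cont G).comp (by fun_prop))).intervalIntegrable _ _

/-- twice the area -/
noncomputable def ar (ρ : ℝ → ℝ) : ℝ := ∫ t in (0:ℝ)..(2 * Real.pi), Real.exp (2 * ρ t)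

lemma exp_int {ρ : ℝ → ℝ} (h : ContinuousOn ρ (Icc 0 (2 * Real.pi))) :
    ContinuousOn (fun t => Real.exp (2 * ρ t)) (Icc 0 (2 * Real.pi)) :=
  (Real.continuous_exp.comp_continuousOn (continuousOn_const.mul h))

lemma cint {F : ℝ → ℝ} (h : ContinuousOn F (Icc 0 (2 * Real.pi))) :
    IntervalIntegrable F volume 0 (2 * Real.pi) :=
  (h.mono (by rw [uIcc_of_le Real.two_pi_pos.le])).intervalIntegrable

theorem ident (hGX : S_GRX) (hGY : S_GRY) (hpos : ∀ p ∈ A, 0 < ang f g p) {s : ℝ} {ρ : ℝ → ℝ}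
    (h : Sol f g A s ρ) :
    s / 2 * ar ρ = ∫ t in (0:ℝ)..(2 * Real.pi),
      cone (dv f g) (pt t (ρ t)) * Real.exp (2 * ρ t) := by
  have hpi := Real.two_pi_pos
  have hpos' : ∀ p ∈ A, 0 < ang (dF f s) (dG g s) p := fun p hp => by
    rw [ang_d]
    exact hpos p hp
  set ρ' : ℝ → ℝ := fun t => sc (dF f s) (dG g s) t (ρ t) with hρ'
  have hρc : ContinuousOn ρ (Icc 0 (2 * Real.pi)) := h.cont
  have hρ'c : ContinuousOn ρ' (Icc 0 (2 * Real.pi)) := h.contf (sc_cont hpos' _)
  have hec : ContinuousOn (fun t => Real.exp (ρ t)) (Icc 0 (2 * Real.pi)) :=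
    Real.continuous_exp.comp_continuousOn hρc
  set x : ℝ → ℝ := fun t => Real.exp (ρ t) * Real.cos t with hx
  set y : ℝ → ℝ := fun t => Real.exp (ρ t) * Real.sin t with hy
  set x' : ℝ → ℝ := fun t => Real.exp (ρ t) * ρ' t * Real.cos t - Real.exp (ρ t) * Real.sin t
    with hx'
  set y' : ℝ → ℝ := fun t => Real.exp (ρ t) * ρ' t * Real.sin t + Real.exp (ρ t) * Real.cos t
    with hy'
  have cc := Real.continuous_cos.continuousOn (s := Icc 0 (2 * Real.pi))
  have cs := Real.continuous_sin.continuousOn (s := Icc 0 (2 * Real.pi))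
  have hxc : ContinuousOn x (Icc 0 (2 * Real.pi)) := hec.mul cc
  have hyc : ContinuousOn y (Icc 0 (2 * Real.pi)) := hec.mul cs
  have hx'c : ContinuousOn x' (Icc 0 (2 * Real.pi)) :=
    ((hec.mul hρ'c).mul cc).sub (hec.mul cs)
  have hy'c : ContinuousOn y' (Icc 0 (2 * Real.pi)) :=
    ((hec.mul hρ'c).mul cs).add (hec.mul cc)
  have hdρ : ∀ t ∈ Ioo 0 (2 * Real.pi), HasDerivAt ρ (ρ' t) t := fun t ht =>
    (h.deriv' t ⟨ht.1.le, ht.2.le⟩).hasDerivAt (Icc_mem_nhds ht.1 ht.2)
  have hdx : ∀ t ∈ Ioo 0 (2 * Real.pi), HasDerivAt x (x' t) t := by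
    intro t ht
    have := ((hdρ t ht).exp).mul (Real.hasDerivAt_cos t)
    refine this.congr_deriv ?_
    simp only [hx']
    ring
  have hdy : ∀ t ∈ Ioo 0 (2 * Real.pi), HasDerivAt y (y' t) t := by
    intro t ht
    exact ((hdρ t ht).exp).mul (Real.hasDerivAt_sin t)
  have hx0 : x 0 = x (2 * Real.pi) := by
    simp only [hx]
    rw [h.closed]
    simp
  have hy0 : y 0 = y (2 * Real.pi) := by
    simp only [hy]
    simp
  have h1 := hGX f (2 * Real.pi) x y x' y' hpi hxc hyc hx'c hy'c hdx hdy hx0 hy0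
  have h2 := hGY g (2 * Real.pi) x y x' y' hpi hxc hyc hx'c hy'c hdx hdy hx0 hy0
  have hpc : ContinuousOn (fun t => ((x t, y t) : ℝ × ℝ)) (Icc 0 (2 * Real.pi)) := hxc.prodMk hyc
  have e1 : ∀ t, x t * y' t - y t * x' t = Real.exp (2 * ρ t) := by
    intro t
    have h3 := Real.sin_sq_add_cos_sq t
    have e : Real.exp (2 * ρ t) = Real.exp (ρ t) ^ 2 := by
      rw [← Real.exp_nat_mul]
      norm_num
    rw [e]
    simp only [hx, hy, hx', hy']
    linear_combination (Real.exp (ρ t) ^ 2) * h3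
  have e2 : ∀ t ∈ Icc 0 (2 * Real.pi), ev f (x t, y t) * y' t - ev g (x t, y t) * x' t =
      s / 2 * Real.exp (2 * ρ t) := by
    intro t ht
    have ha := hpos _ (h.mem t ht)
    have h3 : ρ' t * ang f g (pt t (ρ t)) =
        rad f g (pt t (ρ t)) - s / 2 * Real.exp (2 * ρ t) := by
      simp only [hρ']
      rw [sc_d, div_mul_cancel₀ _ ha.ne']
    have h4 : ev f (x t, y t) * y' t - ev g (x t, y t) * x' t =
        rad f g (pt t (ρ t)) - ρ' t * ang f g (pt t (ρ t)) := by
      have e : ((x t, y t) : ℝ × ℝ) = pt t (ρ t) := rfl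
      rw [e]
      simp only [rad, ang, hx', hy']
      simp only [pt]
      ring
    rw [h4, h3]
    ring
  have i1 : IntervalIntegrable (fun t => ev f (x t, y t) * y' t) volume 0 (2 * Real.pi) :=
    cint (((ev_cont f).comp_continuousOn hpc).mul hy'c)
  have i2 : IntervalIntegrable (fun t => ev g (x t, y t) * x' t) volume 0 (2 * Real.pi) :=
    cint (((ev_cont g).comp_continuousOn hpc).mul hx'c)
  have hE : ContinuousOn (fun t => x t * y' t - y t * x' t) (Icc 0 (2 * Real.pi)) :=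
    (hxc.mul hy'c).sub (hyc.mul hx'c)
  have i3 : IntervalIntegrable (fun t => cone (MvPolynomial.pderiv 0 f) (x t, y t) *
      (x t * y' t - y t * x' t)) volume 0 (2 * Real.pi) :=
    cint (((cone_cont _).comp_continuousOn hpc).mul hE)
  have i4 : IntervalIntegrable (fun t => cone (MvPolynomial.pderiv 1 g) (x t, y t) *
      (x t * y' t - y t * x' t)) volume 0 (2 * Real.pi) :=
    cint (((cone_cont _).comp_continuousOn hpc).mul hE)
  have h5 : ∫ t in (0:ℝ)..(2 * Real.pi), (ev f (x t, y t) * y' t - ev g (x t, y t) * x' t) =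
      ∫ t in (0:ℝ)..(2 * Real.pi), (cone (MvPolynomial.pderiv 0 f) (x t, y t) *
        (x t * y' t - y t * x' t) + cone (MvPolynomial.pderiv 1 g) (x t, y t) *
        (x t * y' t - y t * x' t)) := by
    rw [intervalIntegral.integral_sub i1 i2, intervalIntegral.integral_add i3 i4, h1, ← h2]
    ring
  have h6 : ∫ t in (0:ℝ)..(2 * Real.pi), (ev f (x t, y t) * y' t - ev g (x t, y t) * x' t) =
      s / 2 * ar ρ := by
    unfold ar
    rw [← intervalIntegral.integral_const_mul]
    apply intervalIntegral.integral_congr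
    intro t ht
    rw [uIcc_of_le hpi.le] at ht
    exact e2 t ht
  rw [← h6, h5]
  apply intervalIntegral.integral_congr
  intro t _
  simp only [dv]
  rw [cone_add, e1, ← add_mul]
  rfl

lemma ar_pos {ρ : ℝ → ℝ} (h : ContinuousOn ρ (Icc 0 (2 * Real.pi))) : 0 < ar ρ := by
  unfold ar
  apply intervalIntegral.intervalIntegral_pos_of_pos_on (cint (exp_int h))
  · intro t _
    exact Real.exp_pos _
  · exact Real.two_pi_pos

lemma ar_lt {φ ψ : ℝ → ℝ} (hφ : ContinuousOn φ (Icc 0 (2 * Real.pi)))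
    (hψ : ContinuousOn ψ (Icc 0 (2 * Real.pi)))
    (h : ∀ t ∈ Icc 0 (2 * Real.pi), φ t < ψ t) : ar φ < ar ψ := by
  have h1 : 0 < ∫ t in (0:ℝ)..(2 * Real.pi), (Real.exp (2 * ψ t) - Real.exp (2 * φ t)) := by
    apply intervalIntegral.intervalIntegral_pos_of_pos_on
      (cint ((exp_int hψ).sub (exp_int hφ)))
    · intro t ht
      have := h t ⟨ht.1.le, ht.2.le⟩
      have := Real.exp_lt_exp.2 (by linarith : 2 * φ t < 2 * ψ t)
      show 0 < Real.exp (2 * ψ t) - Real.exp (2 * φ t)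
      linarith
    · exact Real.two_pi_pos
  rw [intervalIntegral.integral_sub (cint (exp_int hψ)) (cint (exp_int hφ))] at h1
  unfold ar
  linarith

/-- the identity with a constant subtracted -/
lemma ident_c (hGX : S_GRX) (hGY : S_GRY) (hpos : ∀ p ∈ A, 0 < ang f g p) {s : ℝ} {ρ : ℝ → ℝ}
    (h : Sol f g A s ρ) (c : ℝ) :
    (s - c) / 2 * ar ρ = ∫ t in (0:ℝ)..(2 * Real.pi),
      (cone (dv f g) (pt t (ρ t)) - c / 2) * Real.exp (2 * ρ t) := by
  have h1 := ident hGX hGY hpos h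
  have hρc : ContinuousOn ρ (Icc 0 (2 * Real.pi)) := h.cont
  have i1 : IntervalIntegrable (fun t => cone (dv f g) (pt t (ρ t)) * Real.exp (2 * ρ t))
      volume 0 (2 * Real.pi) := by
    refine cint (((cone_cont _).comp_continuousOn ?_).mul (exp_int hρc))
    have hec : ContinuousOn (fun t => Real.exp (ρ t)) (Icc 0 (2 * Real.pi)) :=
      Real.continuous_exp.comp_continuousOn hρc
    exact (hec.mul Real.continuous_cos.continuousOn).prodMk
      (hec.mul Real.continuous_sin.continuousOn)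
  have i2 : IntervalIntegrable (fun t => c / 2 * Real.exp (2 * ρ t)) volume 0 (2 * Real.pi) :=
    (cint (exp_int hρc)).const_mul _
  have h2 : ∫ t in (0:ℝ)..(2 * Real.pi),
      (cone (dv f g) (pt t (ρ t)) - c / 2) * Real.exp (2 * ρ t) =
      (∫ t in (0:ℝ)..(2 * Real.pi), cone (dv f g) (pt t (ρ t)) * Real.exp (2 * ρ t)) -
        ∫ t in (0:ℝ)..(2 * Real.pi), c / 2 * Real.exp (2 * ρ t) := by
    rw [← intervalIntegral.integral_sub i1 i2]
    congr 1
    funext t
    ring
  rw [h2, ← h1, intervalIntegral.integral_const_mul]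
  unfold ar
  ring

lemma cone_int {ρ : ℝ → ℝ} (hρc : ContinuousOn ρ (Icc 0 (2 * Real.pi))) (c : ℝ) :
    IntervalIntegrable (fun t => (cone (dv f g) (pt t (ρ t)) - c / 2) * Real.exp (2 * ρ t))
      volume 0 (2 * Real.pi) := by
  refine cint ((((cone_cont _).comp_continuousOn ?_).sub continuousOn_const).mul (exp_int hρc))
  have hec : ContinuousOn (fun t => Real.exp (ρ t)) (Icc 0 (2 * Real.pi)) :=
    Real.continuous_exp.comp_continuousOn hρc
  exact (hec.mul Real.continuous_cos.continuousOn).prodMk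
    (hec.mul Real.continuous_sin.continuousOn)

/-- the bound for the parameter -/
theorem par_le (hGX : S_GRX) (hGY : S_GRY) (hC1 : S_CO1) (hpos : ∀ p ∈ A, 0 < ang f g p)
    {s c m : ℝ} {ρ : ℝ → ℝ} (h : Sol f g A s ρ)
    (hm : ∀ t ∈ Icc 0 (2 * Real.pi), ∀ x ≤ ρ t, |ev (dv f g) (pt t x) - c| ≤ m) :
    |s - c| ≤ m := by
  have h1 := ident_c hGX hGY hpos h c
  have hρc : ContinuousOn ρ (Icc 0 (2 * Real.pi)) := h.cont
  have ha := ar_pos hρc
  have h2 : |(s - c) / 2 * ar ρ| ≤ m / 2 * ar ρ := by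
    rw [h1]
    refine (intervalIntegral.abs_integral_le_integral_abs Real.two_pi_pos.le).trans ?_
    unfold ar
    rw [← intervalIntegral.integral_const_mul]
    refine intervalIntegral.integral_mono_on Real.two_pi_pos.le (cone_int hρc c).abs
      ((cint (exp_int hρc)).const_mul _) fun t ht => ?_
    exact hC1 _ c m t (ρ t) (hm t ht)
  rw [abs_mul, abs_of_pos ha, abs_div, abs_two] at h2
  have h3 := le_of_mul_le_mul_right h2 ha
  linarith

/-- **two nested closed orbits** -/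
theorem pair_le (hGX : S_GRX) (hGY : S_GRY) (hCN : S_CON) (hC1 : S_CO1)
    (hpos : ∀ p ∈ A, 0 < ang f g p) {s s' c m : ℝ} {φ ψ : ℝ → ℝ} (hφ : Sol f g A s φ)
    (hψ : Sol f g A s' ψ) (hlt : ∀ t ∈ Icc 0 (2 * Real.pi), φ t < ψ t)
    (hm : ∀ t ∈ Icc 0 (2 * Real.pi), ∀ x ≤ ψ t, |ev (dv f g) (pt t x) - c| ≤ m) :
    |s' - s| * ar ψ ≤ 2 * m * (ar ψ - ar φ) := by
  have h1 := ident_c hGX hGY hpos hφ c
  have h2 := ident_c hGX hGY hpos hψ c
  have hφc : ContinuousOn φ (Icc 0 (2 * Real.pi)) := hφ.cont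
  have hψc : ContinuousOn ψ (Icc 0 (2 * Real.pi)) := hψ.cont
  have ha := ar_pos hφc
  have hb := ar_lt hφc hψc hlt
  have h3 : |s - c| ≤ m := par_le hGX hGY hC1 hpos hφ fun t ht x hx =>
    hm t ht x (hx.trans (hlt t ht).le)
  have h4 : |(s' - c) / 2 * ar ψ - (s - c) / 2 * ar φ| ≤ m / 2 * (ar ψ - ar φ) := by
    rw [h1, h2, ← intervalIntegral.integral_sub (cone_int hψc c) (cone_int hφc c)]
    refine (intervalIntegral.abs_integral_le_integral_abs Real.two_pi_pos.le).trans ?_
    unfold ar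
    rw [← intervalIntegral.integral_sub (cint (exp_int hψc)) (cint (exp_int hφc)),
      ← intervalIntegral.integral_const_mul]
    refine intervalIntegral.integral_mono_on Real.two_pi_pos.le
      ((cone_int hψc c).sub (cone_int hφc c)).abs
      (((cint (exp_int hψc)).sub (cint (exp_int hφc))).const_mul _) fun t ht => ?_
    exact hCN _ c m t (φ t) (ψ t) (hlt t ht).le fun x hx => hm t ht x hx.2
  have h5 : (s' - s) * ar ψ = 2 * ((s' - c) / 2 * ar ψ - (s - c) / 2 * ar φ) -
      (s - c) * (ar ψ - ar φ) := by ring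
  have h6 : |s' - s| * ar ψ = |(s' - s) * ar ψ| := by
    rw [abs_mul, abs_of_pos (ha.trans hb)]
  rw [h6, h5]
  refine (abs_sub _ _).trans ?_
  rw [abs_mul, abs_mul, abs_two, abs_of_pos (by linarith : 0 < ar ψ - ar φ)]
  have h7 := mul_le_mul_of_nonneg_right h3 (by linarith : 0 ≤ ar ψ - ar φ)
  linarith

end Pool.Agent.J4H16.DV
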