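import Pool.Agent.J4H16.DV.Stm2

/-! Project DV: (LQ) -/

open Set Polynomial

namespace Pool.Agent.J4H16.DV

/-- the terms -/
noncomputable def uu (k : ℕ) (t : ℝ) : ℝ := (1 - t) ^ (16 ^ k)

lemma uu_nonneg {t : ℝ} (ht : t ∈ Icc (0:ℝ) 1) (k : ℕ) : 0 ≤ uu k t :=
  pow_nonneg (by linarith [ht.2]) _

lemma uu_le_one {t : ℝ} (ht : t ∈ Icc (0:ℝ) 1) (k : ℕ) : uu k t ≤ 1 :=
  pow_le_one₀ (by linarith [ht.2]) (by linarith [ht.1])

lemma uu_anti {t : ℝ} (ht : t ∈ Icc (0:ℝ) 1) {k l : ℕ} (h : k ≤ l) : uu l t ≤ uu k t :=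
  pow_le_pow_of_le_one (by linarith [ht.2]) (by linarith [ht.1])
    (Nat.pow_le_pow_right (by norm_num) h)

/-- the alternating sum -/
noncomputable def qs (m : ℕ) (t : ℝ) : ℝ := ∑ k ∈ Finset.range (m + 1), (-1) ^ k * uu k t

/-- an alternating sum with decreasing terms -/
lemma qs_bound {t : ℝ} (ht : t ∈ Icc (0:ℝ) 1) (m : ℕ) :
    (Even m → uu m t ≤ qs m t ∧ qs m t ≤ 1) ∧ (Odd m → 0 ≤ qs m t ∧ qs m t ≤ 1 - uu m t) := by
  induction m with
  | zero =>
    refine ⟨fun _ => ?_, fun h => absurd h (by decide)⟩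
    simp only [qs, zero_add, Finset.sum_range_one, pow_zero, one_mul]
    exact ⟨le_rfl, uu_le_one ht 0⟩
  | succ m ih =>
    have e : qs (m + 1) t = qs m t + (-1) ^ (m + 1) * uu (m + 1) t := by
      unfold qs
      rw [Finset.sum_range_succ _ (m + 1)]
    have ha := uu_anti ht (Nat.le_succ m)
    have hn := uu_nonneg ht (m + 1)
    refine ⟨fun h => ?_, fun h => ?_⟩
    · have hm : Odd m := by
        rw [← Nat.not_even_iff_odd]
        intro h'
        exact (Nat.even_add_one.1 h) h'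
      obtain ⟨h1, h2⟩ := ih.2 hm
      rw [e, h.neg_one_pow]
      constructor <;> linarith
    · have hm : Even m := by
        rw [← Nat.not_odd_iff_even]
        intro h'
        exact (Nat.odd_add_one.1 h) h'
      obtain ⟨h1, h2⟩ := ih.1 hm
      rw [e, h.neg_one_pow]
      constructor <;> linarith

lemma qs_mem {t : ℝ} (ht : t ∈ Icc (0:ℝ) 1) (m : ℕ) : 0 ≤ qs m t ∧ qs m t ≤ 1 := by
  have hn := uu_nonneg ht m
  rcases Nat.even_or_odd m with h | h
  · obtain ⟨h1, h2⟩ := (qs_bound ht m).1 h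
    exact ⟨hn.trans h1, h2⟩
  · obtain ⟨h1, h2⟩ := (qs_bound ht m).2 h
    exact ⟨h1, by linarith⟩

lemma qs_succ (m : ℕ) (t : ℝ) : qs (m + 1) t = qs m t + (-1) ^ (m + 1) * uu (m + 1) t := by
  unfold qs
  rw [Finset.sum_range_succ _ (m + 1)]

lemma qs_low {t : ℝ} (ht : t ∈ Icc (0:ℝ) 1) {j : ℕ} (hj : Even j) : ∀ m, j + 1 ≤ m →
    (Odd m → uu j t - uu (j + 1) t ≤ qs m t) ∧
      (Even m → uu j t - uu (j + 1) t + uu m t ≤ qs m t) := by
  intro m hm
  induction m, hm using Nat.le_induction with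
  | base =>
    have ho : Odd (j + 1) := hj.add_one
    refine ⟨fun _ => ?_, fun h => absurd h (Nat.not_even_iff_odd.2 ho)⟩
    rw [qs_succ, ho.neg_one_pow]
    have := ((qs_bound ht j).1 hj).1
    linarith
  | succ m hm ih =>
    have ha := uu_anti ht (Nat.le_succ m)
    have hn := uu_nonneg ht (m + 1)
    rcases Nat.even_or_odd m with h | h
    · have ho : Odd (m + 1) := h.add_one
      refine ⟨fun _ => ?_, fun h' => absurd h' (Nat.not_even_iff_odd.2 ho)⟩
      rw [qs_succ, ho.neg_one_pow]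
      have := ih.2 h
      linarith
    · have he : Even (m + 1) := h.add_one
      refine ⟨fun h' => absurd h' (Nat.not_odd_iff_even.2 he), fun _ => ?_⟩
      rw [qs_succ, he.neg_one_pow]
      have := ih.1 h
      linarith

lemma qs_upp {t : ℝ} (ht : t ∈ Icc (0:ℝ) 1) {j : ℕ} (hj : Odd j) : ∀ m, j + 1 ≤ m →
    (Even m → qs m t ≤ 1 - uu j t + uu (j + 1) t) ∧
      (Odd m → qs m t ≤ 1 - uu j t + uu (j + 1) t - uu m t) := by
  intro m hm
  induction m, hm using Nat.le_induction with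
  | base =>
    have ho : Even (j + 1) := hj.add_one
    refine ⟨fun _ => ?_, fun h => absurd h (Nat.not_odd_iff_even.2 ho)⟩
    rw [qs_succ, ho.neg_one_pow]
    have := ((qs_bound ht j).2 hj).2
    linarith
  | succ m hm ih =>
    have ha := uu_anti ht (Nat.le_succ m)
    have hn := uu_nonneg ht (m + 1)
    rcases Nat.even_or_odd m with h | h
    · have ho : Odd (m + 1) := h.add_one
      refine ⟨fun h' => absurd h' (Nat.not_even_iff_odd.2 ho), fun _ => ?_⟩
      rw [qs_succ, ho.neg_one_pow]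
      have := ih.1 h
      linarith
    · have he : Even (m + 1) := h.add_one
      refine ⟨fun _ => ?_, fun h' => absurd h' (Nat.not_odd_iff_even.2 he)⟩
      rw [qs_succ, he.neg_one_pow]
      have := ih.2 h
      linarith

/-- the points -/
noncomputable def τ (j : ℕ) : ℝ := 1 / (4 * 16 ^ j)

lemma τ_pos (j : ℕ) : 0 < τ j := by
  unfold τ
  positivity

lemma τ_le (j : ℕ) : τ j ≤ 1 := by
  unfold τ
  rw [div_le_one (by positivity)]
  have : (1:ℝ) ≤ 16 ^ j := one_le_pow₀ (by norm_num)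
  linarith

lemma τ_mem (j : ℕ) : τ j ∈ Icc (0:ℝ) 1 := ⟨(τ_pos j).le, τ_le j⟩

lemma τ_anti (j : ℕ) : τ (j + 1) < τ j := by
  unfold τ
  apply div_lt_div_of_pos_left one_pos (by positivity)
  rw [pow_succ]
  have : (0:ℝ) < 16 ^ j := by positivity
  linarith

lemma uu_τ (j : ℕ) : 3 / 4 ≤ uu j (τ j) := by
  unfold uu
  have h := one_add_mul_le_pow (a := -τ j) (by linarith [τ_le j]) (16 ^ j)
  have e : ((16 ^ j : ℕ) : ℝ) * -τ j = -(1 / 4) := by
    unfold τ
    push_cast
    field_simp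
  rw [e] at h
  rw [sub_eq_add_neg]
  linarith

lemma uu_τ' (j : ℕ) : uu (j + 1) (τ j) ≤ 1 / 40 := by
  unfold uu
  have h1 : 1 - τ j ≤ Real.exp (-τ j) := Real.one_sub_le_exp_neg _
  have h2 : (1 - τ j) ^ (16 ^ (j + 1)) ≤ Real.exp (-τ j) ^ (16 ^ (j + 1)) :=
    pow_le_pow_left₀ (by linarith [τ_le j]) h1 _
  refine h2.trans ?_
  rw [← Real.exp_nat_mul]
  have e : ((16 ^ (j + 1) : ℕ) : ℝ) * -τ j = -4 := by
    unfold τ
    push_cast
    rw [pow_succ]
    field_simp
    norm_num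
  rw [e, Real.exp_neg, ← one_div]
  apply one_div_le_one_div_of_le (by norm_num)
  have h3 : Real.exp 4 = Real.exp 1 ^ 4 := by
    rw [← Real.exp_nat_mul]
    norm_num
  rw [h3]
  have h4 := Real.exp_one_gt_d9
  have h5 : (2.7:ℝ) ^ 4 ≤ Real.exp 1 ^ 4 := pow_le_pow_left₀ (by norm_num) (by linarith) 4
  norm_num at h5 ⊢
  linarith

lemma qs_even {m j : ℕ} (hjm : j ≤ m) (hj : Even j) : 2 / 3 < qs m (τ j) := by
  have h1 := uu_τ j
  have h2 := uu_τ' j
  rcases hjm.eq_or_lt with h | h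
  · subst h
    have := ((qs_bound (τ_mem j) j).1 hj).1
    linarith
  · have h3 := qs_low (τ_mem j) hj m h
    rcases Nat.even_or_odd m with h' | h'
    · have := h3.2 h'
      have := uu_nonneg (τ_mem j) m
      linarith
    · have := h3.1 h'
      linarith

lemma qs_odd {m j : ℕ} (hjm : j ≤ m) (hj : Odd j) : qs m (τ j) < 1 / 3 := by
  have h1 := uu_τ j
  have h2 := uu_τ' j
  rcases hjm.eq_or_lt with h | h
  · subst h
    have := ((qs_bound (τ_mem j) j).2 hj).2
    linarith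
  · have h3 := qs_upp (τ_mem j) hj m h
    rcases Nat.even_or_odd m with h' | h'
    · have := h3.1 h'
      linarith
    · have := h3.2 h'
      have := uu_nonneg (τ_mem j) m
      linarith

/-- the polynomial -/
noncomputable def qp (m : ℕ) : ℝ[X] :=
  ∑ k ∈ Finset.range (m + 1), C ((-1) ^ k) * (1 - X) ^ (16 ^ k)

lemma qp_eval (m : ℕ) (t : ℝ) : (qp m).eval t = qs m t := by
  simp [qp, qs, uu, eval_finsetSum]

lemma qp_deg (m : ℕ) : (qp m).natDegree ≤ 16 ^ m := by
  unfold qp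
  apply natDegree_sum_le_of_forall_le
  intro k hk
  refine (natDegree_C_mul_le _ _).trans ?_
  refine natDegree_pow_le.trans ?_
  have h1 : (1 - X : ℝ[X]).natDegree ≤ 1 :=
    (natDegree_sub_le _ _).trans (by simp)
  calc 16 ^ k * (1 - X : ℝ[X]).natDegree ≤ 16 ^ k * 1 := Nat.mul_le_mul_left _ h1
    _ = 16 ^ k := mul_one _
    _ ≤ 16 ^ m := Nat.pow_le_pow_right (by norm_num) (by
      have := Finset.mem_range.1 hk
      omega)

/-- the roots -/
lemma qs_roots (m : ℕ) {v : ℝ} (hv : v ∈ Ioo (1 / 3 : ℝ) (2 / 3)) :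
    ∃ S : Finset ℝ, m ≤ S.card ∧ ∀ t ∈ S, t ∈ Ioc 0 1 ∧ qs m t = v := by
  classical
  have hc : Continuous (qs m) := by
    have : qs m = fun t => (qp m).eval t := by
      funext t
      exact (qp_eval m t).symm
    rw [this]
    exact (qp m).continuous
  have hex : ∀ j : Fin m, ∃ t ∈ Ioo (τ (j + 1)) (τ j), qs m t = v := by
    intro j
    have hj1 : (j:ℕ) + 1 ≤ m := j.2
    have hj0 : (j:ℕ) ≤ m := by omega
    have hlt := τ_anti j
    rcases Nat.even_or_odd (j:ℕ) with h | h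
    · have h1 := qs_even hj0 h
      have h2 := qs_odd hj1 h.add_one
      have := intermediate_value_Ioo hlt.le hc.continuousOn (f := qs m)
      obtain ⟨t, ht, hte⟩ := this (show v ∈ Ioo (qs m (τ (j + 1))) (qs m (τ j)) from
        ⟨by linarith [hv.1], by linarith [hv.2]⟩)
      exact ⟨t, ht, hte⟩
    · have h1 := qs_odd hj0 h
      have h2 := qs_even hj1 h.add_one
      have := intermediate_value_Ioo' hlt.le hc.continuousOn (f := qs m)
      obtain ⟨t, ht, hte⟩ := this (show v ∈ Ioo (qs m (τ j)) (qs m (τ (j + 1))) from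
        ⟨by linarith [hv.1], by linarith [hv.2]⟩)
      exact ⟨t, ht, hte⟩
  choose x hx hxv using hex
  have hτ : Antitone τ := antitone_nat_of_succ_le fun n => (τ_anti n).le
  have hanti : ∀ i j : Fin m, i < j → x j < x i := by
    intro i j hij
    have h1 := (hx j).2
    have h2 := (hx i).1
    have h3 : τ j ≤ τ (i + 1) := hτ (by
      have : (i:ℕ) < j := hij
      omega)
    linarith
  have hinj : Function.Injective x := by
    intro i j hij
    rcases lt_trichotomy i j with h | h | h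
    · exact absurd hij (hanti i j h).ne'
    · exact h
    · exact absurd hij (hanti j i h).ne
  refine ⟨Finset.univ.image x, ?_, ?_⟩
  · rw [Finset.card_image_of_injective _ hinj]
    simp
  · intro t ht
    obtain ⟨j, -, rfl⟩ := Finset.mem_image.1 ht
    exact ⟨⟨(τ_pos _).trans (hx j).1, (hx j).2.le.trans (τ_le _)⟩, hxv j⟩

/-- the potential for the derivative -/
lemma term_le {t : ℝ} (ht : t ∈ Icc (0:ℝ) 1) (k : ℕ) :
    t * (16 ^ k * (1 - t) ^ (16 ^ k - 1)) ≤
      6 * ((16 ^ (k + 1) * t) / (1 + 16 ^ (k + 1) * t) - (16 ^ k * t) / (1 + 16 ^ k * t)) := by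
  set N : ℝ := 16 ^ k with hN
  have hN1 : 1 ≤ N := one_le_pow₀ (by norm_num)
  set x : ℝ := N * t with hx
  have hx0 : 0 ≤ x := mul_nonneg (by linarith) ht.1
  have h1 : (1 - t) ^ (16 ^ k - 1) ≤ 3 * Real.exp (-x) := by
    have h2 : (1 - t) ^ (16 ^ k - 1) ≤ Real.exp (-t) ^ (16 ^ k - 1) :=
      pow_le_pow_left₀ (by linarith [ht.2]) (Real.one_sub_le_exp_neg _) _
    refine h2.trans ?_
    rw [← Real.exp_nat_mul]
    have e : ((16 ^ k - 1 : ℕ) : ℝ) * -t = t + -x := by
      rw [Nat.cast_sub (Nat.one_le_pow _ _ (by norm_num))]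
      push_cast
      rw [hx, hN]
      ring
    rw [e, Real.exp_add]
    apply mul_le_mul_of_nonneg_right _ (Real.exp_pos _).le
    have h3 : Real.exp t ≤ Real.exp 1 := Real.exp_le_exp.2 ht.2
    have := Real.exp_one_lt_d9
    linarith
  have h4 : (1 + x) * (1 + 16 * x) ≤ 30 * Real.exp x := by
    have h5 := Real.sum_le_exp_of_nonneg hx0 4
    simp only [Finset.sum_range_succ, Finset.sum_range_zero, Nat.factorial] at h5
    norm_num at h5
    nlinarith [pow_nonneg hx0 3, sq_nonneg (x - 1), mul_nonneg hx0 (sq_nonneg (x - 1))]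
  have e2 : (16 ^ (k + 1) * t : ℝ) = 16 * x := by
    rw [pow_succ, hx, hN]
    ring
  rw [e2]
  have e3 : 16 * x / (1 + 16 * x) - x / (1 + x) = 15 * x / ((1 + x) * (1 + 16 * x)) := by
    field_simp
    ring
  rw [e3]
  have h6 : t * (N * (1 - t) ^ (16 ^ k - 1)) ≤ x * (3 * Real.exp (-x)) := by
    have := mul_le_mul_of_nonneg_left h1 hx0
    calc t * (N * (1 - t) ^ (16 ^ k - 1)) = x * (1 - t) ^ (16 ^ k - 1) := by
          rw [hx]
          ring
      _ ≤ _ := this
  refine h6.trans ?_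
  rw [mul_div_assoc', le_div_iff₀ (by positivity), Real.exp_neg]
  have h7 : (Real.exp x)⁻¹ * ((1 + x) * (1 + 16 * x)) ≤ 30 := by
    rw [inv_mul_le_iff₀ (Real.exp_pos x)]
    linarith
  calc x * (3 * (Real.exp x)⁻¹) * ((1 + x) * (1 + 16 * x)) =
        3 * x * ((Real.exp x)⁻¹ * ((1 + x) * (1 + 16 * x))) := by ring
    _ ≤ 3 * x * 30 := mul_le_mul_of_nonneg_left h7 (by positivity)
    _ = 6 * (15 * x) := by ring

lemma qp_der (m : ℕ) (t : ℝ) : (qp m).derivative.eval t =
    ∑ k ∈ Finset.range (m + 1), (-1) ^ (k + 1) * (16 ^ k * (1 - t) ^ (16 ^ k - 1)) := by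
  unfold qp
  rw [derivative_sum, eval_finsetSum]
  apply Finset.sum_congr rfl
  intro k _
  simp [derivative_pow]
  ring

theorem t_LQ : S_LQ := by
  intro m
  refine ⟨qp m, qp_deg m, fun t ht => ?_, fun v hv => ?_⟩
  · rw [qp_eval]
    obtain ⟨h1, h2⟩ := qs_mem ht m
    refine ⟨h1, h2, ?_⟩
    have h3 : |t * (qp m).derivative.eval t| ≤ 6 := by
      rw [qp_der, Finset.mul_sum]
      refine (Finset.abs_sum_le_sum_abs _ _).trans ?_
      have h4 : ∑ k ∈ Finset.range (m + 1),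
          |t * ((-1) ^ (k + 1) * (16 ^ k * (1 - t) ^ (16 ^ k - 1)))| ≤
          ∑ k ∈ Finset.range (m + 1), 6 * ((16 ^ (k + 1) * t) / (1 + 16 ^ (k + 1) * t) -
            (16 ^ k * t) / (1 + 16 ^ k * t)) := by
        apply Finset.sum_le_sum
        intro k _
        refine le_trans (le_of_eq ?_) (term_le ht k)
        have h5 : 0 ≤ (1 - t) ^ (16 ^ k - 1) := pow_nonneg (by linarith [ht.2]) _
        rw [abs_mul, abs_mul, abs_pow, abs_neg, abs_one, one_pow, one_mul, abs_of_nonneg ht.1,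
          abs_of_nonneg (by positivity)]
      refine h4.trans ?_
      rw [← Finset.mul_sum, Finset.sum_range_sub (fun k => (16 ^ k * t) / (1 + 16 ^ k * t))]
      have h6 : (16 ^ (m + 1) * t) / (1 + 16 ^ (m + 1) * t) ≤ 1 := by
        have : 0 ≤ 16 ^ (m + 1) * t := mul_nonneg (by positivity) ht.1
        rw [div_le_one (by linarith)]
        linarith
      have h7 : 0 ≤ (16 ^ 0 * t) / (1 + 16 ^ 0 * t) := by
        have : 0 ≤ 16 ^ 0 * t := mul_nonneg (by positivity) ht.1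
        exact div_nonneg this (by linarith)
      linarith
    have h8 := abs_le.1 h3
    rw [abs_le]
    constructor <;> linarith [h8.1, h8.2]
  · obtain ⟨S, hS, h⟩ := qs_roots m hv
    exact ⟨S, hS, fun t ht => by
      rw [qp_eval]
      exact h t ht⟩

end Pool.Agent.J4H16.DV
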