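import Pool.Agent.J4H16.DV.Stm

/-! Project DV, the order `log n` is optimal. -/

open Set MeasureTheory Topology Filter
open scoped ENNReal NNReal

namespace Pool.Agent.J4H16.DV

open TH525.AG

/-- the field `X - (s / 2) p` -/
noncomputable def fam (f g : MvPolynomial (Fin 2) ℝ) (s : ℝ) (p : ℝ × ℝ) : ℝ × ℝ :=
  (ev f p - s / 2 * p.1, ev g p - s / 2 * p.2)

/-- the punctured disc -/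
def pd (R : ℝ) : Set (ℝ × ℝ) := {p | 0 < p.1 ^ 2 + p.2 ^ 2 ∧ p.1 ^ 2 + p.2 ^ 2 ≤ R ^ 2}

/-- (LQ) `q(t) = ∑_{k ≤ m} (-1)^k (1 - t)^(16^k)` -/
def S_LQ : Prop := ∀ m : ℕ, ∃ q : Polynomial ℝ, q.natDegree ≤ 16 ^ m ∧
  (∀ t ∈ Icc (0:ℝ) 1, 0 ≤ q.eval t ∧ q.eval t ≤ 1 ∧ |q.eval t + t * q.derivative.eval t| ≤ 7) ∧
  ∀ v ∈ Ioo (1 / 3 : ℝ) (2 / 3), ∃ S : Finset ℝ, m ≤ S.card ∧ ∀ t ∈ S, t ∈ Ioc 0 1 ∧ q.eval t = v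

/-- (LOW) the circles: `f = - y + (M / 14) x q(r² / R²)`, `g = x + (M / 14) y q(r² / R²)` -/
def S_LOW : Prop := ∀ (m : ℕ) (M R : ℝ), 0 < M → 0 < R → ∃ f g : MvPolynomial (Fin 2) ℝ,
  f.totalDegree ≤ 2 * 16 ^ m + 1 ∧ g.totalDegree ≤ 2 * 16 ^ m + 1 ∧
  (∀ p ∈ pd R, 0 < ang f g p ∧ |rad f g p| + M / 2 * (p.1 ^ 2 + p.2 ^ 2) ≤ M * ang f g p) ∧
  (∀ p : ℝ × ℝ, p.1 ^ 2 + p.2 ^ 2 ≤ R ^ 2 → |ev (dv f g) p| ≤ M) ∧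
  ∀ s ∈ Ioo (M / 21) (2 * M / 21), (m : ℕ∞) ≤ (closedOrbitsIn (fam f g s) (pd R)).encard

end Pool.Agent.J4H16.DV
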