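import Pool.Agent.J4H16.DV.Idn
import Pool.Agent.J4H16.DV.Stm2
import Pool.Agent.J4H16.LI.Stm

/-! Project DV: the main theorem. -/

open Set MeasureTheory Topology Filter
open scoped ENNReal NNReal

namespace Pool.Agent.J4H16.DV

open TH525.AG
open TH525.PU (curve)

variable {f g : MvPolynomial (Fin 2) ℝ} {A : Set (ℝ × ℝ)}

/-- the oscillation of a closed function with derivative at most `K` -/
lemma osc_le {ρ ρ' : ℝ → ℝ} {K : ℝ}
    (hd : ∀ t ∈ Icc 0 (2 * Real.pi), HasDerivWithinAt ρ (ρ' t) (Icc 0 (2 * Real.pi)) t)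
    (hK : ∀ t ∈ Icc 0 (2 * Real.pi), |ρ' t| ≤ K) (hc : ρ 0 = ρ (2 * Real.pi))
    {t t' : ℝ} (ht : t ∈ Icc 0 (2 * Real.pi)) (ht' : t' ∈ Icc 0 (2 * Real.pi)) :
    ρ t' ≤ ρ t + Real.pi * K := by
  have hpi := Real.two_pi_pos
  have h0m : (0:ℝ) ∈ Icc 0 (2 * Real.pi) := ⟨le_rfl, hpi.le⟩
  have hTm : 2 * Real.pi ∈ Icc 0 (2 * Real.pi) := ⟨hpi.le, le_rfl⟩
  have hl : ∀ a ∈ Icc 0 (2 * Real.pi), ∀ b ∈ Icc 0 (2 * Real.pi), |ρ b - ρ a| ≤ K * |b - a| := by
    intro a ha b hb
    have := (convex_Icc 0 (2 * Real.pi)).norm_image_sub_le_of_norm_hasDerivWithin_le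
      (f := ρ) (f' := ρ') (C := K) hd (fun x hx => by rw [Real.norm_eq_abs]; exact hK x hx) ha hb
    simpa [Real.norm_eq_abs] using this
  rcases le_total t t' with h | h
  · have h1 := (abs_le.1 (hl t ht t' ht')).2
    have h2 := (abs_le.1 (hl 0 h0m t ht)).1
    have h3 := (abs_le.1 (hl t' ht' (2 * Real.pi) hTm)).1
    rw [abs_of_nonneg (by linarith)] at h1
    rw [abs_of_nonneg (by linarith [ht.1])] at h2
    rw [abs_of_nonneg (by linarith [ht'.2])] at h3
    rw [← hc] at h3
    nlinarith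
  · have h1 := (abs_le.1 (hl t' ht' t ht)).1
    have h2 := (abs_le.1 (hl 0 h0m t' ht')).2
    have h3 := (abs_le.1 (hl t ht (2 * Real.pi) hTm)).2
    rw [abs_of_nonneg (by linarith)] at h1
    rw [abs_of_nonneg (by linarith [ht'.1])] at h2
    rw [abs_of_nonneg (by linarith [ht.2])] at h3
    rw [← hc] at h3
    nlinarith

/-- the potential -/
lemma potential {p q : ℝ} (hp : 0 ≤ p) (hpq : p < q) :
    min 1 q * ((q ^ 2 - p ^ 2) / q ^ 2) < 4 * (Real.log (1 + q) - Real.log (1 + p)) := by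
  have hq : 0 < q := lt_of_le_of_lt hp hpq
  have h1 : (q - p) / (1 + q) < Real.log (1 + q) - Real.log (1 + p) := by
    rw [← Real.log_div (by positivity) (by positivity)]
    have h2 := Real.log_lt_sub_one_of_pos (x := (1 + p) / (1 + q)) (by positivity)
      (by
        rw [Ne, div_eq_one_iff_eq (by positivity)]
        intro h
        linarith)
    have h3 : Real.log ((1 + p) / (1 + q)) = -Real.log ((1 + q) / (1 + p)) := by
      rw [← Real.log_inv, inv_div]
    have h4 : (1 + p) / (1 + q) - 1 = -((q - p) / (1 + q)) := by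
      field_simp
      ring
    rw [h3, h4] at h2
    linarith
  have h5 : min 1 q / q ≤ 2 / (1 + q) := by
    rw [div_le_div_iff₀ hq (by positivity)]
    rcases le_total 1 q with h | h
    · rw [min_eq_left h]
      linarith
    · rw [min_eq_right h]
      nlinarith
  have h6 : (q ^ 2 - p ^ 2) / q ^ 2 ≤ 2 * (q - p) / q := by
    rw [div_le_div_iff₀ (by positivity) hq]
    have : (q ^ 2 - p ^ 2) * q = (q - p) * (q + p) * q := by ring
    rw [this]
    have h7 : (q - p) * (q + p) * q ≤ (q - p) * (2 * q) * q := by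
      refine mul_le_mul_of_nonneg_right (mul_le_mul_of_nonneg_left (by linarith) (by linarith)) hq.le
    nlinarith
  have h8 : 0 ≤ min 1 q := le_min zero_le_one hq.le
  calc min 1 q * ((q ^ 2 - p ^ 2) / q ^ 2) ≤ min 1 q * (2 * (q - p) / q) :=
        mul_le_mul_of_nonneg_left h6 h8
    _ = (min 1 q / q) * (2 * (q - p)) := by ring
    _ ≤ (2 / (1 + q)) * (2 * (q - p)) := mul_le_mul_of_nonneg_right h5 (by linarith)
    _ = 4 * ((q - p) / (1 + q)) := by ring
    _ < 4 * (Real.log (1 + q) - Real.log (1 + p)) := by linarith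

lemma reg_pd {R : ℝ} (hR : 0 < R) (t : ℝ) : reg (pd R) t = Iic (Real.log R) := by
  ext x
  have e : Real.exp (2 * x) = Real.exp x ^ 2 := by
    rw [← Real.exp_nat_mul]
    norm_num
  constructor
  · intro h
    have h2 := h.2
    rw [pt_sq, e] at h2
    have h3 := (pow_le_pow_iff_left₀ (Real.exp_pos x).le hR.le two_ne_zero).1 h2
    exact (Real.le_log_iff_exp_le hR).2 h3
  · intro h
    have h3 : Real.exp x ≤ R := (Real.le_log_iff_exp_le hR).1 h
    refine ⟨?_, ?_⟩
    · rw [pt_sq]
      exact Real.exp_pos _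
    · rw [pt_sq, e]
      exact pow_le_pow_left₀ (Real.exp_pos x).le h3 2

lemma fam_eq (s : ℝ) : fam f g s = field (dF f s) (dG g s) 0 := by
  funext p
  simp only [fam, field, ev_dF, ev_dG, zero_mul, add_zero]

/-- the data of a closed orbit -/
lemma orbit_sol {R : ℝ} (hR : 0 < R) (hpos : ∀ p ∈ pd R, 0 < ang f g p) {s : ℝ}
    {C : Set (ℝ × ℝ)} (hC : C ∈ closedOrbitsIn (fam f g s) (pd R)) :
    ∃ ρ : ℝ → ℝ, Sol f g (pd R) s ρ ∧ C = curve ρ '' Icc 0 (2 * Real.pi) := by
  rw [fam_eq] at hC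
  exact orbit_sc (fun t => by rw [reg_pd hR]; exact ordConnected_Iic)
    (fun p hp => by rw [ang_d]; exact hpos p hp) hC

/-- **the main theorem** -/
theorem main (hT : LI.S_TV) (hGX : S_GRX) (hGY : S_GRY) (hCN : S_CON) (hC1 : S_CO1) (hBD : S_BD)
    {n : ℕ} {M R K : ℝ} (hn : 1 ≤ n) (hM : 0 < M) (hR : 0 < R)
    (hd : (dv f g).totalDegree ≤ n - 1) (hpos : ∀ p ∈ pd R, 0 < ang f g p)
    (hK : ∀ p ∈ pd R, |rad f g p| + M / 2 * (p.1 ^ 2 + p.2 ^ 2) ≤ K * ang f g p)
    (hdiv : ∀ p : ℝ × ℝ, p.1 ^ 2 + p.2 ^ 2 ≤ R ^ 2 → |ev (dv f g) p| ≤ M) :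
    (∀ s C, C ∈ closedOrbitsIn (fam f g s) (pd R) → |s| ≤ M) ∧
    ∃ G : ℝ → ℝ≥0∞, Measurable G ∧
      (∀ s, ((closedOrbitsIn (fam f g s) (pd R)).encard : ℝ≥0∞) ≤ G s) ∧
      ∫⁻ s, G s ≤ ENNReal.ofReal (16 * M * (Real.log (1 + 2 * n) + Real.pi * K)) := by
  have hpi := Real.two_pi_pos
  have hA : ∀ t, (reg (pd R) t).OrdConnected := fun t => by
    rw [reg_pd hR]
    exact ordConnected_Iic
  have hK0 : 0 ≤ K := by
    have hp : ((R, 0) : ℝ × ℝ) ∈ pd R := ⟨by simp only; positivity, by simp⟩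
    have h1 := hK _ hp
    have h2 := hpos _ hp
    by_contra hcon
    push Not at hcon
    have h3 := mul_neg_of_neg_of_pos hcon h2
    have h4 : 0 ≤ M / 2 * (R ^ 2 + 0 ^ 2) := by positivity
    have h5 := abs_nonneg (rad f g (R, 0))
    simp only at h1
    linarith
  -- the bound for the parameter
  have hpar : ∀ s ρ, Sol f g (pd R) s ρ → |s| ≤ M := by
    intro s ρ h
    have := par_le hGX hGY hC1 hpos (c := 0) (m := M) h fun t ht x hx => by
      rw [sub_zero]
      apply hdiv
      have h1 : x ∈ reg (pd R) t := by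
        have h2 := h.mem t ht
        rw [reg_pd hR] at h2 ⊢
        exact hx.trans h2
      exact h1.2
    rwa [sub_zero] at this
  refine ⟨fun s C hC => ?_, ?_⟩
  · obtain ⟨ρ, h, -⟩ := orbit_sol hR hpos hC
    exact hpar s ρ h
  let ι : Type := {q : ℝ × Set (ℝ × ℝ) // q.2 ∈ closedOrbitsIn (fam f g q.1) (pd R)}
  have hex := fun i : ι => orbit_sol hR hpos i.2
  choose ρ hρ hcrv using hex
  have hs : ∀ i : ι, |i.1.1| ≤ M := fun i => hpar _ _ (hρ i)
  have hρc : ∀ i, ContinuousOn (ρ i) (Icc 0 (2 * Real.pi)) := fun i => (hρ i).cont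
  have ha0 : ∀ i, 0 < ar (ρ i) := fun i => ar_pos (hρc i)
  -- the shape
  have hsh : ∀ i, ∀ t ∈ Icc 0 (2 * Real.pi), ∀ t' ∈ Icc 0 (2 * Real.pi),
      ρ i t' ≤ ρ i t + Real.pi * K := by
    intro i t ht t' ht'
    refine osc_le (hρ i).deriv' (fun x hx => ?_) (hρ i).closed ht ht'
    have hm := (hρ i).mem x hx
    have h1 := hpos _ hm
    have h2 := hK _ hm
    rw [pt_sq] at h2
    rw [sc_d, abs_div, abs_of_pos h1, div_le_iff₀ h1]
    refine le_trans ?_ h2
    refine (abs_sub _ _).trans ?_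
    have h3 : |i.1.1 / 2 * Real.exp (2 * ρ i x)| ≤ M / 2 * Real.exp (2 * ρ i x) := by
      rw [abs_mul, abs_of_pos (Real.exp_pos _), abs_div, abs_two]
      exact mul_le_mul_of_nonneg_right (by linarith [hs i]) (Real.exp_pos _).le
    linarith
  -- the radius
  set rr : ι → ℝ := fun i => Real.exp (Real.pi * K) * √(ar (ρ i) / (2 * Real.pi)) with hrr
  have hrr0 : ∀ i, 0 < rr i := fun i => by
    have := ha0 i
    positivity
  have hrad : ∀ i, ∀ t ∈ Icc 0 (2 * Real.pi), Real.exp (ρ i t) ≤ rr i := by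
    intro i t ht
    have h1 : ∀ t' ∈ Icc 0 (2 * Real.pi),
        Real.exp (2 * (ρ i t - Real.pi * K)) ≤ Real.exp (2 * ρ i t') := by
      intro t' ht'
      apply Real.exp_le_exp.2
      linarith [hsh i t' ht' t ht]
    have h2 : Real.exp (2 * (ρ i t - Real.pi * K)) * (2 * Real.pi) ≤ ar (ρ i) := by
      have h3 := intervalIntegral.integral_mono_on hpi.le
        (f := fun _ => Real.exp (2 * (ρ i t - Real.pi * K)))
        (g := fun t' => Real.exp (2 * ρ i t')) intervalIntegrable_const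
        (cint (exp_int (hρc i))) h1
      rw [intervalIntegral.integral_const, smul_eq_mul, sub_zero] at h3
      unfold ar
      linarith
    have h4 : Real.exp (ρ i t - Real.pi * K) ≤ √(ar (ρ i) / (2 * Real.pi)) := by
      apply Real.le_sqrt_of_sq_le
      rw [le_div_iff₀ hpi]
      refine le_trans (le_of_eq ?_) h2
      rw [← Real.exp_nat_mul]
      norm_num
    calc Real.exp (ρ i t) = Real.exp (Real.pi * K) * Real.exp (ρ i t - Real.pi * K) := by
          rw [← Real.exp_add]
          congr 1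
          ring
      _ ≤ rr i := mul_le_mul_of_nonneg_left h4 (Real.exp_pos _).le
  have hexR : ∀ i, ∀ t ∈ Icc 0 (2 * Real.pi), Real.exp (ρ i t) ≤ R := by
    intro i t ht
    have h1 := (hρ i).mem t ht
    rw [reg_pd hR] at h1
    exact (Real.le_log_iff_exp_le hR).1 h1
  have hn1 : (1:ℝ) ≤ n := by exact_mod_cast hn
  have hn0 : (0:ℝ) < n := by linarith
  set q : ι → ℝ := fun i => 2 * n * rr i / R with hq
  have hq0 : ∀ i, 0 < q i := fun i => by
    have := hrr0 i
    positivity
  -- the divergence in the interior of a closed orbit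
  have hm : ∀ i, ∀ t ∈ Icc 0 (2 * Real.pi), ∀ x ≤ ρ i t,
      |ev (dv f g) (pt t x) - ev (dv f g) 0| ≤ 2 * M * min 1 (q i) := by
    intro i t ht x hx
    have hb := hBD (dv f g) (n - 1) M R hd hR hM.le hdiv (min (rr i) R)
      (le_min (hrr0 i).le hR.le) (min_le_right _ _) (pt t x) (by
        rw [pt_sq]
        have e : Real.exp (2 * x) = Real.exp x ^ 2 := by
          rw [← Real.exp_nat_mul]
          norm_num
        rw [e]
        apply pow_le_pow_left₀ (Real.exp_pos _).le
        have h1 := Real.exp_le_exp.2 hx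
        exact le_min (h1.trans (hrad i t ht)) (h1.trans (hexR i t ht)))
    refine hb.trans (mul_le_mul_of_nonneg_left (min_le_min le_rfl ?_) (by positivity))
    simp only [hq]
    have e2 : (((n - 1 : ℕ) : ℝ) + 1) = n := by
      rw [Nat.cast_sub hn]
      ring
    rw [e2]
    apply div_le_div_of_nonneg_right _ hR.le
    exact mul_le_mul_of_nonneg_left (min_le_left _ _) (by positivity)
  have hsq : ∀ i, q i ^ 2 = (2 * n * Real.exp (Real.pi * K) / R) ^ 2 / (2 * Real.pi) *
      ar (ρ i) := by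
    intro i
    simp only [hq, hrr]
    have h1 : √(ar (ρ i) / (2 * Real.pi)) ^ 2 = ar (ρ i) / (2 * Real.pi) :=
      Real.sq_sqrt (div_nonneg (ha0 i).le hpi.le)
    calc (2 * n * (Real.exp (Real.pi * K) * √(ar (ρ i) / (2 * Real.pi))) / R) ^ 2 =
          (2 * n * Real.exp (Real.pi * K) / R) ^ 2 * √(ar (ρ i) / (2 * Real.pi)) ^ 2 := by ring
      _ = _ := by
        rw [h1]
        ring
  set h : ι → ℝ := fun i => 16 * M * Real.log (1 + q i) with hh
  have hin : ∀ i j : ι, (∀ t ∈ Icc 0 (2 * Real.pi), ρ i t < ρ j t) →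
      |j.1.1 - i.1.1| < h j - h i := by
    intro i j hlt
    have hp := pair_le hGX hGY hCN hC1 hpos (hρ i) (hρ j) hlt (hm j)
    have hal := ar_lt (hρc i) (hρc j) hlt
    have haj := ha0 j
    have h1 : |j.1.1 - i.1.1| ≤ 4 * M * (min 1 (q j) * ((ar (ρ j) - ar (ρ i)) / ar (ρ j))) := by
      rw [← mul_assoc, mul_div_assoc', le_div_iff₀ haj]
      refine hp.trans (le_of_eq ?_)
      ring
    have h2 : (ar (ρ j) - ar (ρ i)) / ar (ρ j) = (q j ^ 2 - q i ^ 2) / q j ^ 2 := by
      rw [hsq, hsq]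
      have hc : 0 < (2 * n * Real.exp (Real.pi * K) / R) ^ 2 / (2 * Real.pi) := by positivity
      rw [← mul_sub, mul_div_mul_left _ _ hc.ne']
    have h3 : q i < q j := by
      have h4 : q i ^ 2 < q j ^ 2 := by
        rw [hsq, hsq]
        exact mul_lt_mul_of_pos_left hal (by positivity)
      exact lt_of_pow_lt_pow_left₀ 2 (hq0 j).le h4
    rw [h2] at h1
    have h5 := potential (hq0 i).le h3
    have h6 := mul_lt_mul_of_pos_left h5 (by positivity : 0 < 4 * M)
    simp only [hh]
    linarith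
  have hdich : ∀ i j : ι, i ≠ j → |j.1.1 - i.1.1| < |h j - h i| := by
    intro i j hij
    rcases (hρ i).order hA hpos (hρ j) with h1 | h1 | h1
    · have h2 := hin j i h1
      rw [abs_sub_comm (j.1.1), abs_sub_comm (h j)]
      exact h2.trans_le (le_abs_self _)
    · exact (hin i j h1).trans_le (le_abs_self _)
    · exfalso
      apply hij
      apply Subtype.ext
      apply Prod.ext h1.1
      rw [hcrv i, hcrv j]
      apply image_congr
      intro t ht
      simp only [curve]
      rw [h1.2 ht]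
  have hinj : Function.Injective h := by
    intro i j hij
    by_contra hne
    have := hdich i j hne
    rw [hij, sub_self, abs_zero] at this
    exact absurd (abs_nonneg _) (not_le.2 this)
  set top : ℝ := 16 * M * (Real.log (1 + 2 * n) + Real.pi * K) with htop
  have hpK : 0 ≤ Real.pi * K := mul_nonneg Real.pi_pos.le hK0
  have hlog0 : 0 ≤ Real.log (1 + 2 * (n:ℝ)) := Real.log_nonneg (by linarith)
  have hab : (0:ℝ) ≤ top := by positivity
  have hrange : ∀ i, h i ∈ Icc 0 top := by
    intro i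
    constructor
    · simp only [hh]
      refine mul_nonneg (by positivity) (Real.log_nonneg (by linarith [hq0 i]))
    · simp only [hh, htop]
      refine mul_le_mul_of_nonneg_left ?_ (by positivity)
      have h1 : ar (ρ i) ≤ R ^ 2 * (2 * Real.pi) := by
        have h3 := intervalIntegral.integral_mono_on hpi.le
          (f := fun t' => Real.exp (2 * ρ i t'))
          (g := fun _ => R ^ 2) (cint (exp_int (hρc i))) intervalIntegrable_const
          (fun t ht => by
            have e : Real.exp (2 * ρ i t) = Real.exp (ρ i t) ^ 2 := by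
              rw [← Real.exp_nat_mul]
              norm_num
            rw [e]
            exact pow_le_pow_left₀ (Real.exp_pos _).le (hexR i t ht) 2)
        rw [intervalIntegral.integral_const, smul_eq_mul, sub_zero] at h3
        unfold ar
        linarith
      have h2 : √(ar (ρ i) / (2 * Real.pi)) ≤ R := by
        rw [Real.sqrt_le_left hR.le, div_le_iff₀ hpi]
        exact h1
      have h3 : q i ≤ 2 * n * Real.exp (Real.pi * K) := by
        simp only [hq, hrr]
        rw [div_le_iff₀ hR]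
        have := mul_le_mul_of_nonneg_left h2 (by positivity : 0 ≤ 2 * n * Real.exp (Real.pi * K))
        linarith
      have h4 : 1 + q i ≤ (1 + 2 * n) * Real.exp (Real.pi * K) := by
        have := Real.one_le_exp hpK
        nlinarith
      have h5 := Real.log_le_log (by linarith [hq0 i]) h4
      rwa [Real.log_mul (by positivity) (Real.exp_pos _).ne', Real.log_exp] at h5
  have hlip : ∀ i j : ι, |i.1.1 - j.1.1| ≤ |h i - h j| := by
    intro i j
    rcases eq_or_ne i j with rfl | hij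
    · simp
    · rw [abs_sub_comm (i.1.1), abs_sub_comm (h i)]
      exact (hdich i j hij).le
  obtain ⟨G, hG, hGN, hGI⟩ := hT ι (fun i => i.1.1) h 0 top hab hinj hrange hlip
  refine ⟨G, hG, fun s => ?_, hGI.trans (ENNReal.ofReal_le_ofReal (by rw [sub_zero]))⟩
  refine le_trans ?_ (hGN s)
  have hsub : closedOrbitsIn (fam f g s) (pd R) ⊆ (fun i : ι => i.1.2) '' {i : ι | i.1.1 = s} := by
    rintro C hCm
    exact ⟨⟨(s, C), hCm⟩, rfl, rfl⟩
  exact_mod_cast (encard_le_encard hsub).trans (encard_image_le _ _)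

end Pool.Agent.J4H16.DV
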