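import Pool.Agent.J4H16.LI.Top15
import Pool.Agent.J4H16.DV.Deg
import Pool.Agent.H476R2.PL.Geo
import Pool.Agent.H161R3.Upper

/-! Project DV: oscillators `z'' + (q(z, z') + s) z' + z = 0`. -/

open Set MeasureTheory Filter Topology
open scoped ENNReal

namespace Pool.Agent.J4H16.DV

open TH525.AG (ev closedOrbitsIn)
open J4H16.LI

/-- the field of an oscillator -/
noncomputable def oscf (q : MvPolynomial (Fin 2) ℝ) (s : ℝ) (p : ℝ × ℝ) : ℝ × ℝ :=
  (p.2, -p.1 - p.2 * (ev q p + s))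

/-- `q(-y, x)` -/
noncomputable def qb (q : MvPolynomial (Fin 2) ℝ) : MvPolynomial (Fin 2) ℝ :=
  MvPolynomial.bind₁ ![-MvPolynomial.X 1, MvPolynomial.X 0] q

/-- `y - x q(-y, x)` -/
noncomputable def oP (q : MvPolynomial (Fin 2) ℝ) : MvPolynomial (Fin 2) ℝ :=
  MvPolynomial.X 1 - MvPolynomial.X 0 * qb q

lemma ev_qb (q : MvPolynomial (Fin 2) ℝ) (x y : ℝ) : ev (qb q) (x, y) = ev q (-y, x) := by
  unfold ev qb
  rw [← MvPolynomial.aeval_eq_eval, MvPolynomial.aeval_bind₁, MvPolynomial.aeval_eq_eval]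
  congr 2
  funext i
  fin_cases i <;> simp

lemma ev_oP (q : MvPolynomial (Fin 2) ℝ) (x y : ℝ) :
    ev (oP q) (x, y) = y - x * ev q (-y, x) := by
  rw [← ev_qb]
  simp [ev, oP]

lemma qb_deg (q : MvPolynomial (Fin 2) ℝ) : (qb q).totalDegree ≤ q.totalDegree := by
  apply H161R3.totalDegree_bind₁_le
  intro i
  fin_cases i
  · simp [MvPolynomial.totalDegree_X]
  · simp [MvPolynomial.totalDegree_X]

lemma oP_deg {q : MvPolynomial (Fin 2) ℝ} {n : ℕ} (h : q.totalDegree + 1 ≤ n) :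
    (oP q).totalDegree ≤ n := by
  refine (MvPolynomial.totalDegree_sub _ _).trans (max_le ?_ ?_)
  · rw [MvPolynomial.totalDegree_X]
    omega
  · refine (MvPolynomial.totalDegree_mul _ _).trans ?_
    rw [MvPolynomial.totalDegree_X]
    have := qb_deg q
    omega

lemma ev_dqb (hDX : S_DX) (q : MvPolynomial (Fin 2) ℝ) (x y : ℝ) :
    ev (MvPolynomial.pderiv 0 (qb q)) (x, y) = ev (MvPolynomial.pderiv 1 q) (-y, x) := by
  have h1 := hDX (qb q) x y
  have h2 : HasDerivAt (fun t => ev (qb q) (t, y)) (ev (MvPolynomial.pderiv 1 q) (-y, x)) x := by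
    have e : (fun t => ev (qb q) (t, y)) = fun t => MvPolynomial.eval ![-y, t] q := by
      funext t
      rw [ev_qb]
      rfl
    rw [e]
    have h3 := H476R2.PL.hasDerivAt_eval q (γ := fun t => ![-y, t]) (γ' := ![0, 1]) (t := x)
      (fun i => by
        fin_cases i
        · simpa using hasDerivAt_const x (-y)
        · simpa using hasDerivAt_id' x)
    refine h3.congr_deriv ?_
    simp [Fin.sum_univ_two, ev]
  exact h1.unique h2

lemma ev_doP (hDX : S_DX) (q : MvPolynomial (Fin 2) ℝ) (x y : ℝ) :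
    ev (MvPolynomial.pderiv 0 (oP q)) (x, y) =
      -(ev q (-y, x) + x * ev (MvPolynomial.pderiv 1 q) (-y, x)) := by
  rw [← ev_dqb hDX, ← ev_qb]
  unfold oP
  rw [map_sub, Derivation.leibniz]
  simp [ev]
  ring

/-- the rotation of the phase plane -/
def tt (p : ℝ × ℝ) : ℝ × ℝ := (p.2, -p.1)

lemma tt_inj : Function.Injective tt := by
  intro p q h
  have h1 := congrArg Prod.fst h
  have h2 := congrArg Prod.snd h
  simp only [tt] at h1 h2
  exact Prod.ext (by linarith) h1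

lemma osc_orbit {q : MvPolynomial (Fin 2) ℝ} {s R H : ℝ} {C : Set (ℝ × ℝ)}
    (hC : ClosedOrbit (oscf q s) C) (hCs : C ⊆ box H R) :
    ClosedOrbit (fld (pf (oP q)) (fun x => x) s) (tt '' C) ∧ tt '' C ⊆ box R H := by
  constructor
  · obtain ⟨γ, T, hT, hγ, hper, ⟨a, b, hab⟩, rfl⟩ := hC
    refine ⟨fun t => tt (γ t), T, hT, fun t => ?_, fun t => by simp only [hper],
      ⟨a, b, fun h => hab (tt_inj h)⟩, ?_⟩
    · have h1 : HasDerivAt (fun t => (γ t).1) (γ t).2 t := (hγ t).fst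
      have h2 : HasDerivAt (fun t => (γ t).2) (-(γ t).1 - (γ t).2 * (ev q (γ t) + s)) t :=
        (hγ t).snd
      have h3 := h2.prodMk h1.neg
      refine h3.congr_deriv ?_
      simp only [fld, pf, tt]
      rw [ev_oP, neg_neg]
      refine Prod.ext ?_ rfl
      simp only
      ring
    · rw [← range_comp]
      rfl
  · rintro _ ⟨p, hp, rfl⟩
    have := hCs hp
    refine ⟨this.2, ?_⟩
    simp only [tt, abs_neg]
    exact this.1

lemma mul_self_id : ∀ x : ℝ, x ≠ 0 → 0 < x * (fun x : ℝ => x) x := fun _ hx => mul_self_pos.2 hx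

/-- **oscillators** -/
theorem osc_main (hCY : S_CYC) (hC : LI.S_CMP) (hE : S_EQ) (hI : S_IDN) (hT : S_TV)
    (hBX : S_BX) (hDX : S_DX) {q : MvPolynomial (Fin 2) ℝ} {n : ℕ} (hn : 1 ≤ n)
    (hq : q.totalDegree + 1 ≤ n) {M R H : ℝ} (hM : 0 < M) (hR : 0 < R) (hH : 0 < H)
    (hdv : ∀ p : ℝ × ℝ, |p.1| ≤ H → |p.2| ≤ R →
      |ev q p + p.2 * ev (MvPolynomial.pderiv 1 q) p| ≤ M) :
    (∀ s C, ClosedOrbit (oscf q s) C → C ⊆ box H R → |s| ≤ M) ∧
    ∃ G : ℝ → ℝ≥0∞, Measurable G ∧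
      (∀ s, (({C | ClosedOrbit (oscf q s) C ∧ C ⊆ box H R}.encard : ℕ∞) : ℝ≥0∞) ≤ G s) ∧
      ∫⁻ s, G s ≤ ENNReal.ofReal
        (16 * M * Real.log (1 + 32 * (1 + 2 * M) ^ 2 * (1 + R / H) * n)) := by
  obtain ⟨h1, G, hG, hGN, hGI⟩ := main8 hCY hC hE hI hT hBX hDX (P := oP q) (g := fun x => x)
    contDiff_id mul_self_id (fun y hy => by
      rw [ev_oP, zero_mul, sub_zero]
      exact mul_self_pos.2 hy) hn (pderiv_deg 0 (oP q) (oP_deg hq)) hM hR hH le_rfl
    ⟨fun y _ => by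
      simp only [pf]
      rw [ev_oP, zero_mul, sub_zero]
      nlinarith, fun y _ => by
      simp only [pf]
      rw [ev_oP, zero_mul, sub_zero]
      nlinarith⟩
    ⟨fun x _ => by nlinarith, fun x _ => by nlinarith⟩
    (fun x y hx hy => by
      rw [ev_doP hDX, abs_neg]
      exact hdv (-y, x) (by simpa using hy) hx)
  refine ⟨fun s C hO hCs => ?_, G, hG, fun s => ?_, hGI.trans (le_of_eq ?_)⟩
  · obtain ⟨a, b⟩ := osc_orbit hO hCs
    exact h1 s _ a b
  · refine le_trans ?_ (hGN s)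
    refine ENat.toENNReal_le.2 ?_
    refine Set.encard_le_encard_of_injOn (f := fun C => tt '' C) (fun C hCm => ?_) ?_
    · exact osc_orbit hCm.1 hCm.2
    · exact (tt_inj.image_injective).injOn
  · congr 4
    ring

end Pool.Agent.J4H16.DV
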