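import Pool.Agent.J4H90.LI.Semi
import Pool.Agent.TH525.AG.AngMean
import Pool.Agent.J4H16.LI.Stm4

/-! Project DV (MP_95e7ec_an): planar polynomial fields with damping, `X - (s / 2) p`.
The divergence identity: `s` times the area of the interior of a closed orbit is the integral of
the divergence of `X` over the interior. -/

open Set MeasureTheory Topology Filter
open scoped ENNReal NNReal

namespace Pool.Agent.J4H16.DV

open TH525.AG

/-- the divergence -/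
noncomputable def dv (f g : MvPolynomial (Fin 2) ℝ) : MvPolynomial (Fin 2) ℝ :=
  MvPolynomial.pderiv 0 f + MvPolynomial.pderiv 1 g

/-- the members of the family -/
noncomputable def dF (f : MvPolynomial (Fin 2) ℝ) (s : ℝ) : MvPolynomial (Fin 2) ℝ :=
  f - MvPolynomial.C (s / 2) * MvPolynomial.X 0

noncomputable def dG (g : MvPolynomial (Fin 2) ℝ) (s : ℝ) : MvPolynomial (Fin 2) ℝ :=
  g - MvPolynomial.C (s / 2) * MvPolynomial.X 1

/-- the integral of `F` over the part of a sector up to the point `p` -/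
noncomputable def cone (F : MvPolynomial (Fin 2) ℝ) (p : ℝ × ℝ) : ℝ :=
  ∫ τ in (0:ℝ)..1, τ * ev F (τ * p.1, τ * p.2)

/-- (GRX) Green's formula for closed curves -/
def S_GRX : Prop := ∀ (F : MvPolynomial (Fin 2) ℝ) (T : ℝ) (x y x' y' : ℝ → ℝ), 0 < T →
  ContinuousOn x (Icc 0 T) → ContinuousOn y (Icc 0 T) → ContinuousOn x' (Icc 0 T) →
  ContinuousOn y' (Icc 0 T) → (∀ t ∈ Ioo 0 T, HasDerivAt x (x' t) t) →
  (∀ t ∈ Ioo 0 T, HasDerivAt y (y' t) t) → x 0 = x T → y 0 = y T →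
  (∫ t in (0:ℝ)..T, ev F (x t, y t) * y' t) =
    ∫ t in (0:ℝ)..T, cone (MvPolynomial.pderiv 0 F) (x t, y t) * (x t * y' t - y t * x' t)

/-- (GRY) Green's formula for closed curves -/
def S_GRY : Prop := ∀ (F : MvPolynomial (Fin 2) ℝ) (T : ℝ) (x y x' y' : ℝ → ℝ), 0 < T →
  ContinuousOn x (Icc 0 T) → ContinuousOn y (Icc 0 T) → ContinuousOn x' (Icc 0 T) →
  ContinuousOn y' (Icc 0 T) → (∀ t ∈ Ioo 0 T, HasDerivAt x (x' t) t) →
  (∀ t ∈ Ioo 0 T, HasDerivAt y (y' t) t) → x 0 = x T → y 0 = y T →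
  -(∫ t in (0:ℝ)..T, ev F (x t, y t) * x' t) =
    ∫ t in (0:ℝ)..T, cone (MvPolynomial.pderiv 1 F) (x t, y t) * (x t * y' t - y t * x' t)

/-- (CON) the difference of two cones on a ray -/
def S_CON : Prop := ∀ (F : MvPolynomial (Fin 2) ℝ) (c m t x₁ x₂ : ℝ), x₁ ≤ x₂ →
  (∀ x ∈ Icc x₁ x₂, |ev F (pt t x) - c| ≤ m) →
  |(cone F (pt t x₂) - c / 2) * Real.exp (2 * x₂) - (cone F (pt t x₁) - c / 2) * Real.exp (2 * x₁)| ≤
    m / 2 * (Real.exp (2 * x₂) - Real.exp (2 * x₁))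

/-- (CO1) the same from the origin -/
def S_CO1 : Prop := ∀ (F : MvPolynomial (Fin 2) ℝ) (c m t x : ℝ),
  (∀ ξ ≤ x, |ev F (pt t ξ) - c| ≤ m) →
  |(cone F (pt t x) - c / 2) * Real.exp (2 * x)| ≤ m / 2 * Real.exp (2 * x)

/-- (BD) Bernstein's inequality on a disc, from (QB) -/
def S_BD : Prop := ∀ (F : MvPolynomial (Fin 2) ℝ) (n : ℕ) (M R : ℝ), F.totalDegree ≤ n → 0 < R →
  0 ≤ M → (∀ p : ℝ × ℝ, p.1 ^ 2 + p.2 ^ 2 ≤ R ^ 2 → |ev F p| ≤ M) →
  ∀ r : ℝ, 0 ≤ r → r ≤ R → ∀ p : ℝ × ℝ, p.1 ^ 2 + p.2 ^ 2 ≤ r ^ 2 →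
    |ev F p - ev F 0| ≤ 2 * M * min 1 (2 * (n + 1) * r / R)

end Pool.Agent.J4H16.DV
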