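import Pool.Agent.J4H16.DV.Stm

/-! Project DV, part (A'): systems `x' = P(x, y) - s x`, `y' = - g(x)`. -/

open Set MeasureTheory Topology Filter
open scoped ENNReal NNReal

namespace Pool.Agent.J4H16.DV

open TH525.AG

/-- (BX) Bernstein's inequality on a box, from (QB) -/
def S_BX : Prop := ∀ (F : MvPolynomial (Fin 2) ℝ) (n : ℕ) (M R H : ℝ), F.totalDegree ≤ n →
  0 < R → 0 < H → 0 ≤ M → (∀ x y : ℝ, |x| ≤ R → |y| ≤ H → |ev F (x, y)| ≤ M) →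
  ∀ w : ℝ, 0 ≤ w → ∀ x y : ℝ, |x| ≤ R → |y| ≤ H → |x| ≤ w * R → |y| ≤ w * H →
    |ev F (x, y) - ev F 0| ≤ 2 * M * min 1 (2 * (n + 1) * w)

/-- (DX) the partial derivative -/
def S_DX : Prop := ∀ (F : MvPolynomial (Fin 2) ℝ) (x y : ℝ),
  HasDerivAt (fun t => ev F (t, y)) (ev (MvPolynomial.pderiv 0 F) (x, y)) x

end Pool.Agent.J4H16.DV
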